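import Mathlib

/-!
# Preperiodic points of `z ^ 2 + z` summing to `1`

No three preperiodic points of `z ^ 2 + z` have sum `1`.
-/

namespace Pool.Agent.Results.MP_a37635_nt.NoTriple

/-- the polynomial map `z ↦ z ^ 2 + z` -/
def f {K : Type*} [Field K] (z : K) : K := z ^ 2 + z

/-- preperiodic points -/
def Preperiodic {K : Type*} [Field K] (x : K) : Prop :=
  ∃ m n : ℕ, m < n ∧ f^[m] x = f^[n] x

/-- the scaling factor -/
abbrev D : ℤ := 1048576

/-- lower bound for the square of a number in an interval -/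
def mn (a b : ℤ) : ℤ := if a ≤ 0 ∧ 0 ≤ b then 0 else min (a * a) (b * b)

/-- upper bound for the square of a number in an interval -/
def mx (a b : ℤ) : ℤ := max (a * a) (b * b)

/-- escape test -/
def esc : ℕ → ℤ → ℤ → ℤ → ℤ → Bool
  | 0, s0, _, _, _ => decide (3 * D ≤ 2 * s0)
  | n + 1, s0, s1, t0, t1 => decide (3 * D ≤ 2 * s0) || (decide (D ≤ 4 * s0) &&
      esc n (s0 * s0 / D - (s0 + 1) / 2 + mn t0 t1 / D + 65536)
        (-(-(s1 * s1) / D) - s1 / 2 + -(-(mx t0 t1) / D) + 65536)
        (2 * (mn t0 t1 / D) - s1 + 262144)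
        (2 * (-(-(mx t0 t1) / D)) - s0 + 262144))

/-- subdivision -/
def chk : ℕ → ℤ → ℤ → ℤ → ℤ → Bool
  | 0, s0, s1, t0, t1 => esc 14 s0 s1 t0 t1
  | d + 1, s0, s1, t0, t1 => (decide (0 < t0) && decide (s1 * D < t0 * t0)) ||
      esc 14 s0 s1 t0 t1 ||
      (if t1 - t0 < s1 - s0 then
        chk d s0 ((s0 + s1) / 2) t0 t1 && chk d ((s0 + s1) / 2) s1 t0 t1
      else chk d s0 s1 t0 ((t0 + t1) / 2) && chk d s0 s1 ((t0 + t1) / 2) t1)

/-- the conjugated map -/
noncomputable def g (w : ℂ) : ℂ := w ^ 2 + 1 / 4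

theorem g_normSq (w : ℂ) : Complex.normSq (g w) =
    Complex.normSq w ^ 2 - Complex.normSq w / 2 + w.re ^ 2 + 1 / 16 := by
  have h1 : (g w).re = w.re ^ 2 - w.im ^ 2 + 1 / 4 := by
    simp [g, sq]
  have h2 : (g w).im = 2 * w.re * w.im := by
    simp [g, sq]; ring
  rw [Complex.normSq_apply, Complex.normSq_apply, h1, h2]
  ring

theorem g_re (w : ℂ) : (g w).re = 2 * w.re ^ 2 - Complex.normSq w + 1 / 4 := by
  have h1 : (g w).re = w.re ^ 2 - w.im ^ 2 + 1 / 4 := by
    simp [g, sq]
  rw [Complex.normSq_apply, h1]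
  ring

theorem div_le (a : ℤ) : ((a / D : ℤ) : ℝ) ≤ (a : ℝ) / D := by
  have h : a / D * D ≤ a := Int.ediv_mul_le a (by norm_num)
  have h' : ((a / D : ℤ) : ℝ) * (D : ℝ) ≤ a := by exact_mod_cast h
  rw [le_div_iff₀ (by norm_num)]
  exact h'

theorem le_negdiv (a : ℤ) : (a : ℝ) / D ≤ ((-(-a / D) : ℤ) : ℝ) := by
  have h := div_le (-a)
  push_cast at h ⊢
  rw [neg_div] at h
  linarith

theorem mn_le {a b : ℤ} {y : ℝ} (h1 : (a : ℝ) ≤ y) (h2 : y ≤ b) : ((mn a b : ℤ) : ℝ) ≤ y ^ 2 := by
  unfold mn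
  split_ifs with h
  · push_cast; positivity
  · rw [not_and_or] at h
    push Not at h
    push_cast
    rcases h with h | h
    · refine (min_le_left _ _).trans ?_
      have : (0 : ℝ) < a := by exact_mod_cast h
      nlinarith
    · refine (min_le_right _ _).trans ?_
      have : (b : ℝ) < 0 := by exact_mod_cast h
      nlinarith

theorem le_mx {a b : ℤ} {y : ℝ} (h1 : (a : ℝ) ≤ y) (h2 : y ≤ b) : y ^ 2 ≤ ((mx a b : ℤ) : ℝ) := by
  unfold mx
  push_cast
  rcases le_or_gt 0 y with h | h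
  · refine le_trans ?_ (le_max_right _ _)
    nlinarith
  · refine le_trans ?_ (le_max_left _ _)
    nlinarith

theorem esc_sound : ∀ (n : ℕ) (s0 s1 t0 t1 : ℤ), esc n s0 s1 t0 t1 = true → ∀ w : ℂ,
    (s0 : ℝ) ≤ Complex.normSq w * D → Complex.normSq w * D ≤ s1 →
    (t0 : ℝ) ≤ w.re * D → w.re * D ≤ t1 →
    ∃ k : ℕ, 3 / 2 ≤ Complex.normSq (g^[k] w) := by
  intro n
  induction n with
  | zero =>
    intro s0 s1 t0 t1 h w h1 h2 h3 h4
    simp only [esc, decide_eq_true_eq] at h
    refine ⟨0, ?_⟩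
    have : (3 : ℝ) * D ≤ 2 * s0 := by exact_mod_cast h
    simp only [Function.iterate_zero, id]
    have hD : (D : ℝ) = 1048576 := by norm_num
    rw [hD] at this h1
    linarith
  | succ n ih =>
    intro s0 s1 t0 t1 h w h1 h2 h3 h4
    simp only [esc, Bool.or_eq_true, Bool.and_eq_true, decide_eq_true_eq] at h
    have hD : (D : ℝ) = 1048576 := by norm_num
    rcases h with h | ⟨h5, h6⟩
    · refine ⟨0, ?_⟩
      have : (3 : ℝ) * D ≤ 2 * s0 := by exact_mod_cast h
      simp only [Function.iterate_zero, id]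
      rw [hD] at this h1
      linarith
    · have h5' : (D : ℝ) ≤ 4 * s0 := by exact_mod_cast h5
      have key : ∀ k : ℕ, g^[k] (g w) = g^[k + 1] w := fun k => (Function.iterate_succ_apply g k w).symm
      have hmn := mn_le h3 h4
      have hmx := le_mx h3 h4
      have d1 := div_le (s0 * s0)
      have d2 := div_le (mn t0 t1)
      have d3 := le_negdiv (s1 * s1)
      have d4 := le_negdiv (mx t0 t1)
      have e1 : (((s0 + 1) / 2 : ℤ) : ℝ) ≥ s0 / 2 := by
        have : s0 ≤ 2 * ((s0 + 1) / 2) := by omega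
        have : (s0 : ℝ) ≤ 2 * (((s0 + 1) / 2 : ℤ) : ℝ) := by exact_mod_cast this
        linarith
      have e2 : ((s1 / 2 : ℤ) : ℝ) ≤ s1 / 2 := by
        have : 2 * (s1 / 2) ≤ s1 := by omega
        have : 2 * ((s1 / 2 : ℤ) : ℝ) ≤ s1 := by exact_mod_cast this
        linarith
      set x : ℝ := Complex.normSq w * D with hx
      set y : ℝ := w.re * D with hy
      have hS : Complex.normSq (g w) * D = x ^ 2 / D - x / 2 + y ^ 2 / D + 65536 := by
        rw [g_normSq, hx, hy, hD]; ring
      have hT : (g w).re * D = 2 * (y ^ 2 / D) - x + 262144 := by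
        rw [g_re, hx, hy, hD]; ring
      have m1 : (mn t0 t1 : ℝ) / D ≤ y ^ 2 / D := by rw [hD] at *; linarith
      have m2 : y ^ 2 / D ≤ (mx t0 t1 : ℝ) / D := by rw [hD] at *; linarith
      have q1 : (s0 : ℝ) * s0 / D - s0 / 2 ≤ x ^ 2 / D - x / 2 := by
        rw [hD] at *; nlinarith
      have q2 : x ^ 2 / D - x / 2 ≤ (s1 : ℝ) * s1 / D - s1 / 2 := by
        rw [hD] at *; nlinarith
      obtain ⟨k, hk⟩ := ih _ _ _ _ h6 (g w)
        (by rw [hS]; push_cast at *; linarith)
        (by rw [hS]; push_cast at *; linarith)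
        (by rw [hT]; push_cast at *; linarith)
        (by rw [hT]; push_cast at *; linarith)
      exact ⟨k + 1, by rw [← key]; exact hk⟩

theorem chk_sound : ∀ (n : ℕ) (s0 s1 t0 t1 : ℤ), chk n s0 s1 t0 t1 = true → ∀ w : ℂ,
    (s0 : ℝ) ≤ Complex.normSq w * D → Complex.normSq w * D ≤ s1 →
    (t0 : ℝ) ≤ w.re * D → w.re * D ≤ t1 →
    ∃ k : ℕ, 3 / 2 ≤ Complex.normSq (g^[k] w) := by
  intro n
  induction n with
  | zero =>
    intro s0 s1 t0 t1 h
    exact esc_sound 14 s0 s1 t0 t1 h
  | succ n ih =>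
    intro s0 s1 t0 t1 h w h1 h2 h3 h4
    simp only [chk, Bool.or_eq_true, Bool.and_eq_true, decide_eq_true_eq] at h
    rcases h with (⟨h5, h6⟩ | h5) | h5
    · exfalso
      have h5' : (0 : ℝ) < t0 := by exact_mod_cast h5
      have h6' : (s1 : ℝ) * D < t0 * t0 := by exact_mod_cast h6
      have hD : (D : ℝ) = 1048576 := by norm_num
      have h7 : w.re ^ 2 ≤ Complex.normSq w := by
        rw [Complex.normSq_apply]; nlinarith [mul_self_nonneg w.im]
      have h8 : (w.re * D) ^ 2 ≤ (Complex.normSq w * D) * D := by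
        rw [hD]; nlinarith
      have h9 : (t0 : ℝ) * t0 ≤ (w.re * D) ^ 2 := by nlinarith
      have h10 : (Complex.normSq w * D) * D ≤ s1 * D := by
        apply mul_le_mul_of_nonneg_right h2
        rw [hD]; norm_num
      linarith
    · exact esc_sound 14 s0 s1 t0 t1 h5 w h1 h2 h3 h4
    · split_ifs at h5 with h6
      · rw [Bool.and_eq_true] at h5
        rcases le_total (Complex.normSq w * D) (((s0 + s1) / 2 : ℤ) : ℝ) with h7 | h7
        · exact ih _ _ _ _ h5.1 w h1 h7 h3 h4
        · exact ih _ _ _ _ h5.2 w h7 h2 h3 h4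
      · rw [Bool.and_eq_true] at h5
        rcases le_total (w.re * D) (((t0 + t1) / 2 : ℤ) : ℝ) with h7 | h7
        · exact ih _ _ _ _ h5.1 w h1 h2 h3 h7
        · exact ih _ _ _ _ h5.2 w h1 h2 h7 h4

theorem check : chk 24 728177 1572864 873813 1284296 = true := by
  decide +kernel

/-- points with large real part escape -/
theorem escape {w : ℂ} (hw : 5 / 6 ≤ w.re) : ∃ k : ℕ, 3 / 2 ≤ Complex.normSq (g^[k] w) := by
  by_cases h : 3 / 2 ≤ Complex.normSq w
  · exact ⟨0, h⟩
  · push Not at h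
    have hD : (D : ℝ) = 1048576 := by norm_num
    have h7 : w.re ^ 2 ≤ Complex.normSq w := by
      rw [Complex.normSq_apply]; nlinarith [mul_self_nonneg w.im]
    have h8 : w.re ≤ 12248 / 10000 := by
      by_contra hc
      push Not at hc
      nlinarith
    apply chk_sound 24 _ _ _ _ check w
    · rw [hD]; push_cast; nlinarith
    · rw [hD]; push_cast; linarith
    · rw [hD]; push_cast; linarith
    · rw [hD]; push_cast; linarith

theorem norm_g {w : ℂ} (hw : 3 / 2 ≤ Complex.normSq w) :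
    3 / 2 ≤ Complex.normSq (g w) ∧ Complex.normSq w < Complex.normSq (g w) := by
  rw [g_normSq]
  have := sq_nonneg w.re
  constructor <;> nlinarith

theorem escape_strict {w : ℂ} (hw : 3 / 2 ≤ Complex.normSq w) :
    StrictMono fun k : ℕ => Complex.normSq (g^[k] w) := by
  have h : ∀ k : ℕ, 3 / 2 ≤ Complex.normSq (g^[k] w) := by
    intro k
    induction k with
    | zero => exact hw
    | succ k ih =>
      rw [Function.iterate_succ_apply']
      exact (norm_g ih).1
  apply strictMono_nat_of_lt_succ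
  intro k
  show Complex.normSq (g^[k] w) < Complex.normSq (g^[k + 1] w)
  rw [Function.iterate_succ_apply']
  exact (norm_g (h k)).2

theorem re_lt {w : ℂ} {m n : ℕ} (hmn : m < n) (h : g^[m] w = g^[n] w) : w.re < 5 / 6 := by
  by_contra hc
  push Not at hc
  obtain ⟨k, hk⟩ := escape hc
  have hs := escape_strict hk
  have h1 : g^[m] (g^[k] w) = g^[n] (g^[k] w) := by
    rw [← Function.iterate_add_apply, ← Function.iterate_add_apply, add_comm m k, add_comm n k,
      Function.iterate_add_apply, Function.iterate_add_apply, h]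
  have := hs hmn
  simp only at this
  rw [h1] at this
  exact lt_irrefl _ this

theorem conj (z : ℂ) (k : ℕ) : g^[k] (z + 1 / 2) = f^[k] z + 1 / 2 := by
  induction k with
  | zero => rfl
  | succ k ih =>
    rw [Function.iterate_succ_apply', Function.iterate_succ_apply', ih]
    unfold g f
    ring

theorem complex_re {z : ℂ} (h : Preperiodic z) : z.re < 1 / 3 := by
  obtain ⟨m, n, hmn, h⟩ := h
  have h1 : g^[m] (z + 1 / 2) = g^[n] (z + 1 / 2) := by rw [conj, conj, h]
  have h2 := re_lt hmn h1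
  have h3 : (z + 1 / 2).re = z.re + 1 / 2 := by simp
  rw [h3] at h2
  linarith

theorem Preperiodic.map {K L : Type*} [Field K] [Field L] (φ : K →+* L) {x : K}
    (h : Preperiodic x) : Preperiodic (φ x) := by
  obtain ⟨m, n, hmn, h⟩ := h
  have key : ∀ k : ℕ, f^[k] (φ x) = φ (f^[k] x) := by
    intro k
    induction k with
    | zero => rfl
    | succ k ih =>
      rw [Function.iterate_succ_apply', Function.iterate_succ_apply', ih]
      unfold f
      simp
  exact ⟨m, n, hmn, by rw [key, key, h]⟩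

/-- Three preperiodic points of `z ↦ z ^ 2 + z` in an algebraic closure of `ℚ` never have
sum `1`. -/
theorem result (a b c : AlgebraicClosure ℚ) (ha : Preperiodic a) (hb : Preperiodic b)
    (hc : Preperiodic c) : a + b + c ≠ 1 := by
  intro h
  let φ : AlgebraicClosure ℚ →+* ℂ := 
    haveI : Algebra.IsAlgebraic ℚ (AlgebraicClosure ℚ) := AlgebraicClosure.isAlgebraic ℚ
    (IsAlgClosed.lift (R := ℚ) (S := AlgebraicClosure ℚ) (M := ℂ)).toRingHom
  have h1 := complex_re (ha.map φ)
  have h2 := complex_re (hb.map φ)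
  have h3 := complex_re (hc.map φ)
  have h4 : φ a + φ b + φ c = 1 := by rw [← map_add, ← map_add, h, map_one]
  have h5 := congrArg Complex.re h4
  simp only [Complex.add_re, Complex.one_re] at h5
  linarith

end Pool.Agent.Results.MP_a37635_nt.NoTriple
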